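import Pool.Agent.Helper74.WB.St

/-!
# Project WB (MP_26f0da_lc), module RDP: the effect of a rule without its first letter
-/

set_option autoImplicit false

namespace Pool.Agent.Helper29.WB

open Pool.Agent.Helper74 Pool.Agent.Helper74.WB

theorem hRDP (hPSH : StPSH) : StRDP := by
  obtain ⟨h1, -, h3, h4⟩ := hPSH
  intro W rk g σ hg
  have hred : Red (gG g).tail := (h3 W rk g hg).2
  have htail : (gG g).tail = (.z g.1, false) ::
      (g.2.reverse.map (fun X => ((Lb.z X : Lb W), true)) ++ [((Lb.b true : Lb W), true)]) := rfl
  have hrest : Red (g.2.reverse.map (fun X => ((Lb.z X : Lb W), true)) ++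
      [((Lb.b true : Lb W), true)]) := by
    rw [htail] at hred
    exact red_tail _ _ hred
  have hcan : ∀ τ : List (Lb W × Bool), ap ((Lb.z g.1 : Lb W), false) ((.z g.1, true) :: τ) = τ :=
    fun τ => ap_cancel ((Lb.z g.1 : Lb W), false) τ
  refine ⟨?_, ?_, ?_⟩
  · intro hσ
    rw [h1 (Lb W) (gG g).tail σ hred ?_, (h4 W g).2.2.2]
    · simp
    · intro x hx y hy
      rw [htail] at hx
      simp only [List.head?_cons, Option.mem_def, Option.some.injEq] at hx
      subst hx
      exact hσ y hy
  · intro hσ
    rw [htail, rd_cons, hcan, h1 (Lb W) _ σ hrest ?_]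
    · simp [cfg, ← List.map_reverse]
    · intro x hx y hy h
      have hx2 : x.2 = true := by
        have hxm := List.mem_of_mem_head? hx
        rw [List.mem_append] at hxm
        rcases hxm with hxm | hxm
        · rw [List.mem_map] at hxm
          obtain ⟨X, -, rfl⟩ := hxm
          rfl
        · rw [List.mem_singleton] at hxm
          subst hxm
          rfl
      have hy2 := hσ y hy
      rw [h] at hy2
      simp [iv, hx2] at hy2
  · intro hnil hσ
    rw [htail, rd_cons, hcan, hnil]
    simp only [List.reverse_nil, List.map_nil, List.nil_append]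
    rw [rd_cons, rd_nil, ap_push' _ _ ?_]
    intro y hy
    exact hσ y hy

end Pool.Agent.Helper29.WB
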